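import Pool.Agent.K1H67.PC.Cor

/-!
Finite groups all of whose `P`-characters are monomial: factorizations.
-/

set_option autoImplicit false

namespace Pool.Agent.Results.MP_8e3030_al.Factorizations

open Pool.Agent.K1H67.PC

theorem result (G : Type) [Group G] [Finite G] (hG : AllMonomial G) (N M : Subgroup G)
    [N.Normal] [M.Normal] (hperf : M ≤ ⁅M, M⁆ ⊔ N) :
    (∀ H : Subgroup G, IsCoatom H → ∀ (Ω : Type) [Finite Ω] [MulAction G Ω],
      (∀ n ∈ N, ∀ x : Ω, n • x = x) → ∀ Y : Set Ω, (∀ h ∈ H, ∀ y ∈ Y, h • y ∈ Y) →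
      (¬ ∀ m ∈ M, ∀ y ∈ Y, m • y ∈ Y) →
      ∃ U : Subgroup G, N ≤ U ∧ ¬ M ≤ U ∧
        U.index + Nat.card (MulAction.orbitRel.Quotient M Ω) ≤ Nat.card Ω) ∧
    (∀ U : Subgroup G, Smallest N M U → ¬ IsCoatom U ∧
      ∀ H : Subgroup G, IsCoatom H → ¬ M ≤ H → ∀ g : G, ∃ h ∈ H, ∃ u ∈ U, g = h * u) ∧
    (∀ K : Subgroup G, N ≤ K → K ≤ M → ¬ M ≤ K →
      (∀ K' : Subgroup G, N ≤ K' → K' ≤ M → ¬ M ≤ K' → K.relIndex M ≤ K'.relIndex M) →
      ∃ g : G, ∀ m ∈ M,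
        K.map (MulAut.conj g).toMonoidHom ≠ K.map (MulAut.conj m).toMonoidHom) ∧
    (M = ⊤ → N = ⊤) := by
  refine ⟨?_, ?_, ?_, ?_⟩
  · intro H hH Ω _ _ hN Y hY hYM
    exact main hG N M hperf H hH Ω hN Y hY hYM
  · intro U hU
    exact ⟨not_coatom hG N M hperf U hU, fun H hH hMH => factor_all hG N M hperf U hU H hH hMH⟩
  · intro K hNK hKM hMK hmin
    exact classes hG N M hperf K hNK hKM hMK hmin
  · intro hM
    by_contra hN
    subst hM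
    obtain ⟨K, hK, hKmin⟩ := Set.exists_min_image {K : Subgroup G | N ≤ K ∧ ¬ (⊤ : Subgroup G) ≤ K}
      (fun K => K.relIndex (⊤ : Subgroup G)) (Set.toFinite _)
      ⟨N, le_rfl, fun h => hN (top_le_iff.1 h)⟩
    obtain ⟨g, hg⟩ := classes hG N ⊤ hperf K hK.1 le_top hK.2
      (fun K' h1 _ h3 => hKmin K' ⟨h1, h3⟩)
    exact hg g (Subgroup.mem_top g) rfl

end Pool.Agent.Results.MP_8e3030_al.Factorizations
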