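import Pool.Agent.K1H67.PC.Prod

/-!
Finite groups all of whose `P`-characters are monomial have no product actions of smallest degree.
-/

set_option autoImplicit false

namespace Pool.Agent.Results.MP_8e3030_al.ProductActions

open Pool.Agent.K1H67.PC

theorem result (G : Type) [Group G] [Finite G] (hG : AllMonomial G) (N : Subgroup G) [N.Normal]
    (ι Ω : Type) [Finite ι] [Nonempty ι] [Finite Ω] [MulAction G ι]
    [MulAction.IsPretransitive G ι] [MulAction G Ω] (β : Ω → ι) (y : ι → Ω)
    (T : ι → Subgroup G) (m : ℕ) (hm : 3 ≤ m) (hP : ProdType G N ι Ω β y T m)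
    (H : Subgroup G) (hH : IsCoatom H) :
    ¬ ∀ h ∈ H, ∀ i, h • y i = y (h • i) :=
  fun h => prod_case hG N ι Ω β y T m hm hP H hH h

end Pool.Agent.Results.MP_8e3030_al.ProductActions
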